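import Pool.Agent.H17.FX.Final

/-!
# MP_901665_lc: uniform test sets for fixed points of endomorphisms

Every language over an `n`-letter alphabet has a test set with at most `2 ^ n ((n+1) ^ 2 + 1)` words
with respect to all pairs of homomorphisms one of which is injective and has an image containing the
image of the other; in particular there are that few words in the language such that every
endomorphism which fixes these words fixes all words of the language.

The proof: let `h` be injective and `g = h ∘ e`; then `g` and `h` agree on `x` if and only if
`e x = x`.  Let `R` be the set of the letters which are not mortal for `e`.  Then `e` fixes `x` if and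
only if a local condition holds for all factors `c w c'` of `x` with `c`, `c'` in `R` (or end markers)
and `w` without letters from `R`; and for given `e`, `c`, `c'` at most one `w` satisfies it.  So a
ladder of such factors and endomorphisms (with the same `R`) has at most `(n+1) ^ 2 + 1` terms.
-/

namespace Pool.Agent.H33.Old.NestedImages901665

open H17 FreeMonoid

/-- `h` is injective and its image contains the image of `g`. -/
def Nested {A B : Type} (g h : FreeMonoid A →* FreeMonoid B) : Prop :=
  Function.Injective h ∧ Set.range g ⊆ Set.range h

private lemma hom_flatMap {A B : Type} (g : FreeMonoid A →* FreeMonoid B) (y : FreeMonoid A) :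
    toList (g y) = (toList y).flatMap (fun a => toList (g (of a))) := by
  induction y using FreeMonoid.inductionOn' with
  | one => simp
  | of_mul a y ih =>
    rw [map_mul, toList_mul, ih, toList_of_mul, List.flatMap_cons]

/-- a pair with nested images comes from an endomorphism -/
private lemma exists_endo {A B : Type} {g h : FreeMonoid A →* FreeMonoid B} (H : Nested g h) :
    ∃ e : A → List A, ∀ x : FreeMonoid A, g x = h x ↔ FX.ext e (toList x) = toList x := by
  have h1 : ∀ a : A, ∃ y : FreeMonoid A, h y = g (of a) := fun a => H.2 ⟨of a, rfl⟩
  choose y hy using h1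
  refine ⟨fun a => toList (y a), fun x => ?_⟩
  have h2 : g = h.comp (lift y) := by
    apply FreeMonoid.hom_eq
    intro a
    rw [MonoidHom.comp_apply, lift_eval_of, hy]
  have h3 : toList (lift y x) = FX.ext (fun a => toList (y a)) (toList x) := by
    rw [hom_flatMap]
    simp only [lift_eval_of]
    rfl
  rw [← h3]
  constructor
  · intro h4
    rw [h2, MonoidHom.comp_apply] at h4
    rw [H.1 h4]
  · intro h4
    rw [h2, MonoidHom.comp_apply, toList.injective h4]

/-- **Uniform test sets with respect to pairs with nested images.** -/
theorem result (n : ℕ) (A : Type) [Fintype A] (hA : Fintype.card A = n)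
    (L : Set (FreeMonoid A)) :
    ∃ F : Finset (FreeMonoid A), (↑F : Set (FreeMonoid A)) ⊆ L ∧
      F.card ≤ 2 ^ n * ((n + 1) ^ 2 + 1) ∧
      ∀ (B : Type) (g h : FreeMonoid A →* FreeMonoid B), (Nested g h ∨ Nested h g) →
        (∀ x ∈ F, g x = h x) → ∀ x ∈ L, g x = h x := by
  classical
  subst hA
  obtain ⟨F, hFL, hFc, hF⟩ := FX.fixed_list (toList '' L)
  refine ⟨F.image ofList, ?_, Finset.card_image_le.trans hFc, ?_⟩
  · intro x hx
    obtain ⟨y, hy, rfl⟩ := Finset.mem_image.mp (Finset.mem_coe.mp hx)
    obtain ⟨x, hxL, hxy⟩ := hFL hy
    rw [← hxy, ofList_toList]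
    exact hxL
  · intro B g h hgh hagr x hx
    have key : ∀ g h : FreeMonoid A →* FreeMonoid B, Nested g h →
        (∀ x ∈ F.image ofList, g x = h x) → g x = h x := by
      intro g h H hagr
      obtain ⟨e, he⟩ := exists_endo H
      rw [he]
      refine hF e (fun f hf => ?_) (toList x) ⟨x, hx, rfl⟩
      have h1 := (he (ofList f)).mp (hagr _ (Finset.mem_image_of_mem _ hf))
      exact h1
    rcases hgh with H | H
    · exact key g h H hagr
    · exact (key h g H (fun z hz => (hagr z hz).symm)).symm

end Pool.Agent.H33.Old.NestedImages901665
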